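import Mathlib

/-!
Real multiplicative bases versus integer multiplicative bases.

The construction: the incidence graph of the points and the non-vertical lines of the
affine plane over `ZMod p`, a different prime number for each vertex, and for each vertex
`v` the real number (product of the primes of the neighbours of `v`) / (prime of `v`).
-/

namespace Pool.Agent.Results.MP_e3bb54_nt.RealBasisGap

open Finset

section General

variable {V : Type*} [Fintype V] [DecidableEq V]


omit [Fintype V] [DecidableEq V] in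
lemma dvd_prod_iff {q : V → ℕ} (hq : ∀ v, (q v).Prime) (hinj : Function.Injective q)
    (S : Finset V) (v : V) : q v ∣ ∏ w ∈ S, q w ↔ v ∈ S := by
  constructor
  · intro h
    obtain ⟨w, hw, hd⟩ := (Prime.dvd_finsetProd_iff (hq v).prime _).1 h
    have := (Nat.prime_dvd_prime_iff_eq (hq v) (hq w)).1 hd
    rw [hinj this]; exact hw
  · intro h
    exact Finset.dvd_prod_of_mem q h

/-- The indices whose prime divides `c`. -/
def supp (q : V → ℕ) (c : ℕ) : Finset V := univ.filter (fun v => q v ∣ c)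

lemma supp_split {q : V → ℕ} (hq : ∀ v, (q v).Prime) (hinj : Function.Injective q)
    (S : Finset V) (k : ℕ) (hS : S.card = 2 * k) (c c' : ℕ) (h : ∏ w ∈ S, q w = c * c') :
    (supp q c ⊆ S ∧ k ≤ (supp q c).card) ∨ (supp q c' ⊆ S ∧ k ≤ (supp q c').card) := by
  have h1 : supp q c ⊆ S := by
    intro v hv
    have hv' : q v ∣ c := by simpa [supp] using hv
    exact (dvd_prod_iff hq hinj S v).1 (h ▸ Dvd.dvd.mul_right hv' c')
  have h2 : supp q c' ⊆ S := by
    intro v hv
    have hv' : q v ∣ c' := by simpa [supp] using hv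
    exact (dvd_prod_iff hq hinj S v).1 (h ▸ Dvd.dvd.mul_left hv' c)
  have h3 : S ⊆ supp q c ∪ supp q c' := by
    intro v hv
    have := (dvd_prod_iff hq hinj S v).2 hv
    rw [h] at this
    rcases ((hq v).dvd_mul).1 this with h' | h'
    · exact mem_union_left _ (by simpa [supp] using h')
    · exact mem_union_right _ (by simpa [supp] using h')
  have h4 : S.card ≤ (supp q c).card + (supp q c').card :=
    (card_le_card h3).trans (card_union_le _ _)
  by_cases h5 : k ≤ (supp q c).card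
  · exact Or.inl ⟨h1, h5⟩
  · exact Or.inr ⟨h2, by omega⟩

end General

section Plane

variable {p : ℕ} [hp : Fact p.Prime]

/-- Vertices: points `inl (x, y)` and lines `inr (a, b)`, that is `y = a x + b`. -/
abbrev Vtx (p : ℕ) := (ZMod p × ZMod p) ⊕ (ZMod p × ZMod p)

/-- For the flag with the point `(x, a x + b)` and the line `(a, b)`: the other points of the
line and the other lines through the point. -/
def S (e : ZMod p × ZMod p × ZMod p) : Finset (Vtx p) :=
  (((univ : Finset (ZMod p)).erase e.1).image (fun x' => (x', e.2.1 * x' + e.2.2))).disjSum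
    (((univ : Finset (ZMod p)).erase e.2.1).image
      (fun a' => (a', e.2.1 * e.1 + e.2.2 - a' * e.1)))

lemma card_S (e : ZMod p × ZMod p × ZMod p) : (S e).card = 2 * (p - 1) := by
  unfold S
  rw [card_disjSum, card_image_of_injective, card_image_of_injective,
    card_erase_of_mem (mem_univ _), card_erase_of_mem (mem_univ _), card_univ, ZMod.card]
  · ring
  · intro a b h; exact (Prod.ext_iff.1 h).1
  · intro a b h; exact (Prod.ext_iff.1 h).1

lemma inter_small (hp5 : 5 ≤ p) (e f : ZMod p × ZMod p × ZMod p) (T : Finset (Vtx p))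
    (hT1 : T ⊆ S e) (hT2 : T ⊆ S f) (hT : p - 1 ≤ T.card) : e = f := by
  obtain ⟨x, a, b⟩ := e
  obtain ⟨x₂, a₂, b₂⟩ := f
  by_contra hne
  -- the two index sets
  set A1 : Finset (ZMod p) := univ.filter
    (fun t => t ≠ x ∧ t ≠ x₂ ∧ a * t + b = a₂ * t + b₂) with hA1
  set A2 : Finset (ZMod p) := univ.filter
    (fun t => t ≠ a ∧ t ≠ a₂ ∧ a * x + b - t * x = a₂ * x₂ + b₂ - t * x₂) with hA2
  have hl : T.toLeft.card ≤ A1.card := by
    have hsub : T.toLeft ⊆ A1.image (fun t => (t, a * t + b)) := by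
      intro z hz
      rw [mem_toLeft] at hz
      have h1 := hT1 hz
      have h2 := hT2 hz
      simp only [S, inl_mem_disjSum, mem_image, mem_erase, mem_univ, and_true] at h1 h2
      obtain ⟨t, ht, rfl⟩ := h1
      obtain ⟨t', ht', h'⟩ := h2
      obtain ⟨h3, h4⟩ := Prod.ext_iff.1 h'
      simp only at h3 h4
      subst h3
      rw [mem_image]
      refine ⟨t', ?_, rfl⟩
      rw [hA1, mem_filter]
      exact ⟨mem_univ _, ht, ht', h4.symm⟩
    exact (card_le_card hsub).trans card_image_le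
  have hr : T.toRight.card ≤ A2.card := by
    have hsub : T.toRight ⊆ A2.image (fun t => (t, a * x + b - t * x)) := by
      intro z hz
      rw [mem_toRight] at hz
      have h1 := hT1 hz
      have h2 := hT2 hz
      simp only [S, inr_mem_disjSum, mem_image, mem_erase, mem_univ, and_true] at h1 h2
      obtain ⟨t, ht, rfl⟩ := h1
      obtain ⟨t', ht', h'⟩ := h2
      obtain ⟨h3, h4⟩ := Prod.ext_iff.1 h'
      simp only at h3 h4
      subst h3
      rw [mem_image]
      refine ⟨t', ?_, rfl⟩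
      rw [hA2, mem_filter]
      exact ⟨mem_univ _, ht, ht', h4.symm⟩
    exact (card_le_card hsub).trans card_image_le
  have hcard : T.card = T.toLeft.card + T.toRight.card := (card_toLeft_add_card_toRight).symm
  have hpair : ∀ u v : ZMod p, u ≠ v →
      ((univ : Finset (ZMod p)).filter (fun t => t ≠ u ∧ t ≠ v)).card ≤ p - 2 := by
    intro u v huv
    have : (univ : Finset (ZMod p)).filter (fun t => t ≠ u ∧ t ≠ v) = univ \ {u, v} := by
      ext t; simp
    rw [this, card_sdiff_of_subset (subset_univ _), card_pair huv, card_univ, ZMod.card]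
  by_cases hL : a = a₂ ∧ b = b₂
  · obtain ⟨rfl, rfl⟩ := hL
    have hx : x ≠ x₂ := by
      rintro rfl; exact hne rfl
    have hA2e : A2 = ∅ := by
      rw [hA2, filter_eq_empty_iff]
      rintro t - ⟨h1, -, h3⟩
      have : (a - t) * (x - x₂) = 0 := by linear_combination h3
      rcases mul_eq_zero.1 this with h | h
      · exact h1 (sub_eq_zero.1 h).symm
      · exact hx (sub_eq_zero.1 h)
    have hA1c : A1.card ≤ p - 2 := by
      refine (card_le_card ?_).trans (hpair x x₂ hx)
      intro t ht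
      rw [hA1, mem_filter] at ht
      rw [mem_filter]
      exact ⟨mem_univ _, ht.2.1, ht.2.2.1⟩
    rw [hA2e, card_empty] at hr
    omega
  · by_cases hP : x = x₂ ∧ a * x + b = a₂ * x₂ + b₂
    · obtain ⟨rfl, hy⟩ := hP
      have ha : a ≠ a₂ := by
        rintro rfl
        exact hL ⟨rfl, by linear_combination hy⟩
      have hA1e : A1 = ∅ := by
        rw [hA1, filter_eq_empty_iff]
        rintro t - ⟨h1, -, h3⟩
        have : (a - a₂) * (t - x) = 0 := by linear_combination h3 - hy
        rcases mul_eq_zero.1 this with h | h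
        · exact ha (sub_eq_zero.1 h)
        · exact h1 (sub_eq_zero.1 h)
      have hA2c : A2.card ≤ p - 2 := by
        refine (card_le_card ?_).trans (hpair a a₂ ha)
        intro t ht
        rw [hA2, mem_filter] at ht
        rw [mem_filter]
        exact ⟨mem_univ _, ht.2.1, ht.2.2.1⟩
      rw [hA1e, card_empty] at hl
      omega
    · have h1 : A1.card ≤ 1 := by
        rw [card_le_one]
        intro s hs t ht
        rw [hA1, mem_filter] at hs ht
        by_contra hst
        have : (a - a₂) * (s - t) = 0 := by linear_combination hs.2.2.2 - ht.2.2.2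
        rcases mul_eq_zero.1 this with h | h
        · have haa : a = a₂ := sub_eq_zero.1 h
          subst haa
          exact hL ⟨rfl, by linear_combination hs.2.2.2⟩
        · exact hst (sub_eq_zero.1 h)
      have h2 : A2.card ≤ 1 := by
        rw [card_le_one]
        intro s hs t ht
        rw [hA2, mem_filter] at hs ht
        by_contra hst
        have : (s - t) * (x - x₂) = 0 := by linear_combination ht.2.2.2 - hs.2.2.2
        rcases mul_eq_zero.1 this with h | h
        · exact hst (sub_eq_zero.1 h)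
        · have hxx : x = x₂ := sub_eq_zero.1 h
          subst hxx
          exact hP ⟨rfl, by linear_combination hs.2.2.2⟩
      omega

/-- The real number attached to a vertex. -/
noncomputable def bval (q : Vtx p → ℕ) : Vtx p → ℝ
  | Sum.inl z => (∏ a' : ZMod p, (q (Sum.inr (a', z.2 - a' * z.1)) : ℝ)) / (q (Sum.inl z) : ℝ)
  | Sum.inr l => (∏ x' : ZMod p, (q (Sum.inl (x', l.1 * x' + l.2)) : ℝ)) / (q (Sum.inr l) : ℝ)

lemma bval_pos {q : Vtx p → ℕ} (hq : ∀ v, (q v).Prime) (v : Vtx p) : 0 < bval q v := by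
  rcases v with z | l
  · exact div_pos (prod_pos fun i _ => by exact_mod_cast (hq _).pos)
      (by exact_mod_cast (hq _).pos)
  · exact div_pos (prod_pos fun i _ => by exact_mod_cast (hq _).pos)
      (by exact_mod_cast (hq _).pos)

lemma bval_mul {q : Vtx p → ℕ} (hq : ∀ v, (q v).Prime) (x a b : ZMod p) :
    ((∏ w ∈ S (x, a, b), q w : ℕ) : ℝ) =
      bval q (Sum.inl (x, a * x + b)) * bval q (Sum.inr (a, b)) := by
  have hP : (q (Sum.inl (x, a * x + b)) : ℝ) ≠ 0 := by exact_mod_cast (hq _).ne_zero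
  have hL : (q (Sum.inr (a, b)) : ℝ) ≠ 0 := by exact_mod_cast (hq _).ne_zero
  have h1 : (∏ a' : ZMod p, (q (Sum.inr (a', a * x + b - a' * x)) : ℝ)) =
      (q (Sum.inr (a, b)) : ℝ) *
        ∏ a' ∈ univ.erase a, (q (Sum.inr (a', a * x + b - a' * x)) : ℝ) := by
    rw [← mul_prod_erase univ _ (mem_univ a)]
    have : a * x + b - a * x = b := by ring
    rw [this]
  have h2 : (∏ x' : ZMod p, (q (Sum.inl (x', a * x' + b)) : ℝ)) =
      (q (Sum.inl (x, a * x + b)) : ℝ) *
        ∏ x' ∈ univ.erase x, (q (Sum.inl (x', a * x' + b)) : ℝ) := by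
    rw [← mul_prod_erase univ _ (mem_univ x)]
  have h3 : ((∏ w ∈ S (x, a, b), q w : ℕ) : ℝ) =
      (∏ x' ∈ univ.erase x, (q (Sum.inl (x', a * x' + b)) : ℝ)) *
      ∏ a' ∈ univ.erase a, (q (Sum.inr (a', a * x + b - a' * x)) : ℝ) := by
    unfold S
    rw [prod_disjSum, prod_image, prod_image]
    · push_cast; rfl
    · intro s _ t _ h; exact (Prod.ext_iff.1 h).1
    · intro s _ t _ h; exact (Prod.ext_iff.1 h).1
  rw [h3]
  simp only [bval]
  rw [h1, h2]
  field_simp

/-- The finite statement for one prime. -/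
lemma main_prime (hp5 : 5 ≤ p) (n : ℕ) (hn : 2 * p ^ 2 ≤ n) :
    ∃ B : Finset ℝ, (∀ b ∈ B, 0 < b) ∧ B.card = n ∧
      ∃ A : Finset ℕ, (∀ a ∈ A, 0 < a ∧ ∃ x ∈ B, ∃ y ∈ B, (a : ℝ) = x * y) ∧
        ∀ C : Finset ℕ, (∀ a ∈ A, ∃ x ∈ C, ∃ y ∈ C, a = x * y) → p ^ 3 ≤ C.card := by
  classical
  -- distinct primes
  obtain ⟨q, hq, hinj⟩ : ∃ q : Vtx p → ℕ, (∀ v, (q v).Prime) ∧ Function.Injective q := by
    refine ⟨fun v => Nat.nth Nat.Prime (Fintype.equivFin (Vtx p) v), fun v => ?_, ?_⟩
    · exact Nat.nth_mem_of_infinite Nat.infinite_setOfPred_prime _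
    · intro u v h
      have := (Nat.nth_injective Nat.infinite_setOfPred_prime) h
      exact (Fintype.equivFin (Vtx p)).injective (Fin.ext this)
  -- the real basis
  let B0 : Finset (Set.Ioi (0 : ℝ)) :=
    univ.image (fun v : Vtx p => (⟨bval q v, bval_pos hq v⟩ : Set.Ioi (0 : ℝ)))
  have hB0 : B0.card ≤ n := by
    refine card_image_le.trans ?_
    rw [card_univ, Fintype.card_sum, Fintype.card_prod, ZMod.card]
    nlinarith
  haveI : Infinite (Set.Ioi (0 : ℝ)) := (Set.Ioi_infinite (0 : ℝ)).to_subtype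
  obtain ⟨B1, hB01, hB1⟩ := Infinite.exists_superset_card_eq B0 n hB0
  refine ⟨B1.map (Function.Embedding.subtype _), ?_, by rw [card_map]; exact hB1, ?_⟩
  · intro b hb
    rw [mem_map] at hb
    obtain ⟨z, -, rfl⟩ := hb
    exact z.2
  have hmem : ∀ v : Vtx p, bval q v ∈ B1.map (Function.Embedding.subtype _) := by
    intro v
    rw [mem_map]
    exact ⟨⟨bval q v, bval_pos hq v⟩, hB01 (mem_image_of_mem _ (mem_univ v)), rfl⟩
  refine ⟨univ.image (fun e : ZMod p × ZMod p × ZMod p => ∏ w ∈ S e, q w), ?_, ?_⟩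
  · intro a ha
    rw [mem_image] at ha
    obtain ⟨⟨x, α, β⟩, -, rfl⟩ := ha
    refine ⟨prod_pos fun w _ => (hq w).pos, _, hmem (Sum.inl (x, α * x + β)), _,
      hmem (Sum.inr (α, β)), bval_mul hq x α β⟩
  · intro C hC
    have hch : ∀ e : ZMod p × ZMod p × ZMod p, ∃ c ∈ C, supp q c ⊆ S e ∧
        p - 1 ≤ (supp q c).card := by
      intro e
      obtain ⟨c, hc, c', hc', h⟩ := hC _ (mem_image_of_mem _ (mem_univ e))
      rcases supp_split hq hinj (S e) (p - 1) (card_S e) c c' h with h' | h'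
      · exact ⟨c, hc, h'⟩
      · exact ⟨c', hc', h'⟩
    choose g hg1 hg2 hg3 using hch
    have hginj : Function.Injective g := by
      intro e f hef
      refine inter_small hp5 e f (supp q (g e)) (hg2 e) ?_ (hg3 e)
      rw [hef]; exact hg2 f
    have hcard : (univ.image g).card = p ^ 3 := by
      rw [card_image_of_injective _ hginj, card_univ, Fintype.card_prod, Fintype.card_prod,
        ZMod.card]
      ring
    rw [← hcard]
    refine card_le_card ?_
    intro c hc
    rw [mem_image] at hc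
    obtain ⟨e, -, rfl⟩ := hc
    exact hg1 e

end Plane

/-- **Theorem.** For every real `ε < 1/2` there is `n₀` such that for every `n > n₀` there are a
set `B` of `n` positive reals and a finite set `A` of positive integers, `A ⊆ ℕ ∩ BB`, that is
contained in no product set `CC` with `C` a set of fewer than `n ^ (1 + ε)` positive
integers. -/
theorem result : ∀ ε : ℝ, ε < 1 / 2 → ∃ n₀ : ℕ, ∀ n : ℕ, n₀ < n →
    ∃ B : Finset ℝ, (∀ b ∈ B, 0 < b) ∧ B.card = n ∧
      ∃ A : Finset ℕ, (∀ a ∈ A, 0 < a ∧ ∃ x ∈ B, ∃ y ∈ B, (a : ℝ) = x * y) ∧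
        ∀ C : Finset ℕ, (∀ c ∈ C, 0 < c) → (C.card : ℝ) < (n : ℝ) ^ (1 + ε) →
          ¬ (∀ a ∈ A, ∃ x ∈ C, ∃ y ∈ C, a = x * y) := by
  intro ε hε
  -- large n
  have hlim : Filter.Tendsto (fun n : ℕ => (n : ℝ) ^ (1 / 2 - ε)) Filter.atTop Filter.atTop :=
    (tendsto_rpow_atTop (by linarith)).comp tendsto_natCast_atTop_atTop
  obtain ⟨n₁, hn₁⟩ := Filter.eventually_atTop.1 (hlim.eventually_ge_atTop (512 : ℝ))
  refine ⟨max n₁ 1000, fun n hn => ?_⟩
  have hn1 : n₁ ≤ n := (le_max_left _ _).trans hn.le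
  have hn2 : 1000 < n := (le_max_right _ _).trans_lt hn
  set s := Nat.sqrt n with hs
  have hs1 : s * s ≤ n := Nat.sqrt_le n
  have hs2 : n < (s + 1) * (s + 1) := Nat.lt_succ_sqrt n
  have hs31 : 31 ≤ s := by
    by_contra h
    have : s + 1 ≤ 31 := by omega
    have := Nat.mul_le_mul this this
    omega
  set m := s / 4 with hm
  have hm7 : 7 ≤ m := by omega
  have hm4 : 4 * m ≤ s := by omega
  have hm8 : s + 1 ≤ 8 * m := by omega
  obtain ⟨p, hpp, hmp, hp2⟩ := Nat.exists_prime_lt_and_le_two_mul m (by omega)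
  haveI : Fact p.Prime := ⟨hpp⟩
  have h2p : 2 * p ^ 2 ≤ n := by nlinarith
  obtain ⟨B, hB1, hB2, A, hA, hC⟩ := main_prime (p := p) (by omega) n h2p
  refine ⟨B, hB1, hB2, A, hA, fun C _ hCc hcov => ?_⟩
  have h3 := hC C hcov
  have h4 : ((p : ℝ)) ^ 3 ≤ (C.card : ℝ) := by exact_mod_cast h3
  have hnpos : (0 : ℝ) < n := by exact_mod_cast (by omega : 0 < n)
  -- sqrt n ≤ 8 m ≤ 8 p
  have h5 : Real.sqrt n ≤ 8 * p := by
    rw [Real.sqrt_le_left (by positivity)]
    have h6 : n ≤ (8 * p) ^ 2 := by nlinarith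
    exact_mod_cast h6
  have h7 : (n : ℝ) ^ (3 / 2 : ℝ) ≤ 512 * (p : ℝ) ^ 3 := by
    have : (n : ℝ) ^ (3 / 2 : ℝ) = (Real.sqrt n) ^ 3 := by
      rw [Real.sqrt_eq_rpow, ← Real.rpow_natCast, ← Real.rpow_mul hnpos.le]
      norm_num
    rw [this]
    calc (Real.sqrt n) ^ 3 ≤ (8 * (p : ℝ)) ^ 3 := pow_le_pow_left₀ (Real.sqrt_nonneg _) h5 3
      _ = 512 * (p : ℝ) ^ 3 := by ring
  have h8 : (512 : ℝ) * (n : ℝ) ^ (1 + ε) ≤ (n : ℝ) ^ (3 / 2 : ℝ) := by
    have h9 : (n : ℝ) ^ (3 / 2 : ℝ) = (n : ℝ) ^ (1 / 2 - ε) * (n : ℝ) ^ (1 + ε) := by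
      rw [← Real.rpow_add hnpos]; congr 1; ring
    rw [h9]
    exact mul_le_mul_of_nonneg_right (hn₁ n hn1) (Real.rpow_nonneg hnpos.le _)
  linarith

end Pool.Agent.Results.MP_e3bb54_nt.RealBasisGap
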